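import Pool.Agent.KS6_41.SC5.Main

namespace Pool.Agent.Results.MP_aa43e9_co.Robust

open Pool.Agent.KS6_41.SC5

/-- The bull: vertices `a = 0`, `b = 1`, `c = 2`, `d = 3`, `e = 4` and edges
`ab, bc, ca, ad, be`. -/
def bull : SimpleGraph (Fin 5) :=
  SimpleGraph.fromRel
    (fun i j => (i, j) ∈ ([(0, 1), (1, 2), (2, 0), (0, 3), (1, 4)] : List (Fin 5 × Fin 5)))

instance : DecidableRel bull.Adj := fun a b => by
  unfold bull; rw [SimpleGraph.fromRel_adj]; infer_instance

/-- `S` is a set of five vertices whose induced subgraph is self-complementary; more precisely it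
is the 5-cycle or the bull. -/
def Good {V : Type*} (G : SimpleGraph V) (S : Finset V) : Prop :=
  S.card = 5 ∧ Nonempty (G.induce (S : Set V) ≃g (G.induce (S : Set V))ᶜ) ∧
    (Nonempty (G.induce (S : Set V) ≃g SimpleGraph.cycleGraph 5) ∨
      Nonempty (G.induce (S : Set V) ≃g bull))

def isoCompl {A C : Type*} {G : SimpleGraph A} {H : SimpleGraph C} (e : G ≃g H) : Gᶜ ≃g Hᶜ where
  toEquiv := e.toEquiv
  map_rel_iff' := by
    intro a b
    simp only [SimpleGraph.compl_adj]
    have h1 : (e.toEquiv a ≠ e.toEquiv b) ↔ a ≠ b := e.toEquiv.injective.ne_iff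
    have h2 : H.Adj (e.toEquiv a) (e.toEquiv b) ↔ G.Adj a b := e.map_adj_iff
    rw [h1, h2]

theorem c5_self : Nonempty (SimpleGraph.cycleGraph 5 ≃g (SimpleGraph.cycleGraph 5)ᶜ) := by
  refine ⟨⟨⟨fun i => 2 * i, fun i => 3 * i, by decide, by decide⟩, ?_⟩⟩
  decide

theorem bull_self : Nonempty (bull ≃g bullᶜ) := by
  refine ⟨⟨⟨![3, 4, 2, 1, 0], ![4, 3, 2, 0, 1], by decide, by decide⟩, ?_⟩⟩
  decide

theorem good_of {V : Type*} (G : SimpleGraph V) (H : SimpleGraph (Fin 5)) (f : Fin 5 → V)
    (hf : Function.Injective f) (hadj : ∀ i j, G.Adj (f i) (f j) ↔ H.Adj i j)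
    (hself : Nonempty (H ≃g Hᶜ)) :
    ∃ S : Finset V, S.card = 5 ∧ Nonempty (G.induce (S : Set V) ≃g (G.induce (S : Set V))ᶜ) ∧
      Nonempty (G.induce (S : Set V) ≃g H) ∧ ∀ x ∈ S, ∃ i, f i = x := by
  classical
  have hmem : ∀ i, f i ∈ ((Finset.univ.map ⟨f, hf⟩ : Finset V) : Set V) := by
    intro i; simp
  let e0 : Fin 5 ≃ ((Finset.univ.map ⟨f, hf⟩ : Finset V) : Set V) :=
    Equiv.ofBijective (fun i => ⟨f i, hmem i⟩) (by
      constructor
      · intro i j hij
        exact hf (congrArg Subtype.val hij)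
      · rintro ⟨x, hx⟩
        simp only [Finset.coe_map, Function.Embedding.coeFn_mk, Finset.coe_univ,
          Set.image_univ, Set.mem_range] at hx
        obtain ⟨i, hi⟩ := hx
        exact ⟨i, Subtype.ext hi⟩)
  let e1 : H ≃g G.induce ((Finset.univ.map ⟨f, hf⟩ : Finset V) : Set V) :=
    { toEquiv := e0
      map_rel_iff' := by
        intro a b
        exact hadj a b }
  obtain ⟨s⟩ := hself
  refine ⟨Finset.univ.map ⟨f, hf⟩, by simp, ⟨?_⟩, ⟨e1.symm⟩, by simp⟩
  exact (e1.symm.trans s).trans (isoCompl e1)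

theorem two_tight {V : Type*} [Fintype V] [Nontrivial V] (G : SimpleGraph V)
    (h1 : ∀ u v, u ≠ v → ¬ G.Adj u v → ∃ w, G.Adj w u ∧ G.Adj w v)
    (h2 : ∀ u v, G.Adj u v → ∃ w, w ≠ u ∧ w ≠ v ∧ ¬ G.Adj w u ∧ ¬ G.Adj w v) :
    ∃ S : Finset V, Good G S := by
  classical
  by_contra hno
  have hcfg : Cfg (fun a b => G.Adj a b) (fun a b => a ≠ b ∧ ¬ G.Adj a b) := by
    refine ⟨fun h => h.symm, fun h => ⟨h.1.symm, fun hh => h.2 hh.symm⟩, fun h h' => h'.2 h,
      fun {a b} hab => ?_, fun h => G.irrefl h, fun h => h.1 rfl, ?_, ?_⟩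
    · by_cases h : G.Adj a b
      · exact Or.inl h
      · exact Or.inr ⟨hab, h⟩
    · intro a b c d e ab bc cd de ea ac bd ce da eb
      apply hno
      obtain ⟨S, hS1, hS2, hS3, -⟩ := good_of G (SimpleGraph.cycleGraph 5) ![a, b, c, d, e]
        (by
          have := ab.ne; have := bc.ne; have := cd.ne; have := de.ne; have := ea.ne
          have := ac.1; have := bd.1; have := ce.1; have := da.1; have := eb.1
          intro i j hij
          fin_cases i <;> fin_cases j <;> simp_all)
        (by
          have nac := ac.2; have nbd := bd.2; have nce := ce.2; have nda := da.2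
          have neb := eb.2
          have nca : ¬ G.Adj c a := fun h => nac h.symm
          have ndb : ¬ G.Adj d b := fun h => nbd h.symm
          have nec : ¬ G.Adj e c := fun h => nce h.symm
          have nad : ¬ G.Adj a d := fun h => nda h.symm
          have nbe : ¬ G.Adj b e := fun h => neb h.symm
          have ba := ab.symm; have cb := bc.symm; have dc := cd.symm; have ed := de.symm
          have ae := ea.symm
          have key : ∀ i j : Fin 5, (SimpleGraph.cycleGraph 5).Adj i j ↔
              (j = i + 1 ∨ i = j + 1) := by decide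
          intro i j
          rw [key]
          fin_cases i <;> fin_cases j <;> simp_all)
        c5_self
      exact ⟨S, hS1, hS2, Or.inl hS3⟩
    · intro a x y b z ax xy yb xz yz ay ab az xb zb
      apply hno
      obtain ⟨S, hS1, hS2, hS3, -⟩ := good_of G bull ![x, y, z, a, b]
        (by
          have := ax.ne; have := xy.ne; have := yb.ne; have := xz.ne; have := yz.ne
          have := ay.1; have := ab.1; have := az.1; have := xb.1; have := zb.1
          intro i j hij
          fin_cases i <;> fin_cases j <;> simp_all)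
        (by
          have nay := ay.2; have nab := ab.2; have naz := az.2; have nxb := xb.2
          have nzb := zb.2
          have nya : ¬ G.Adj y a := fun h => nay h.symm
          have nba : ¬ G.Adj b a := fun h => nab h.symm
          have nza : ¬ G.Adj z a := fun h => naz h.symm
          have nbx : ¬ G.Adj b x := fun h => nxb h.symm
          have nbz : ¬ G.Adj b z := fun h => nzb h.symm
          have xa := ax.symm; have yx := xy.symm; have bY := yb.symm; have zx := xz.symm
          have zy := yz.symm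
          have key : ∀ i j : Fin 5, bull.Adj i j ↔
              ((i, j) ∈ ([(0, 1), (1, 2), (2, 0), (0, 3), (1, 4), (1, 0), (2, 1), (0, 2), (3, 0),
                (4, 1)] : List (Fin 5 × Fin 5))) := by decide
          intro i j
          rw [key]
          fin_cases i <;> fin_cases j <;> simp_all)
        bull_self
      exact ⟨S, hS1, hS2, Or.inr hS3⟩
  refine main hcfg ?_ ?_
  · intro x y hxy
    obtain ⟨w, w1, w2, w3, w4⟩ := h2 x y hxy
    exact ⟨w, ⟨w1, w3⟩, ⟨w2, w4⟩⟩
  · intro x y hxy
    exact h1 x y hxy.1 hxy.2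

theorem regular {V : Type*} [Fintype V] (G : SimpleGraph V) [DecidableRel G.Adj] (k : ℕ)
    (hk : 0 < k) (hV : Fintype.card V = 2 * k + 1) (hG : G.IsRegularOfDegree k) :
    ∃ S : Finset V, Good G S := by
  classical
  have : Nontrivial V := Fintype.one_lt_card_iff_nontrivial.1 (by omega)
  refine two_tight G ?_ ?_
  · intro u v huv hnadj
    by_contra hcon
    push Not at hcon
    have hdisj : Disjoint (G.neighborFinset u) (G.neighborFinset v) := by
      rw [Finset.disjoint_left]
      intro w hw hw'
      rw [SimpleGraph.mem_neighborFinset] at hw hw'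
      exact hcon w hw.symm hw'.symm
    have hsub : G.neighborFinset u ∪ G.neighborFinset v ⊆ Finset.univ \ {u, v} := by
      intro w hw
      simp only [Finset.mem_sdiff, Finset.mem_univ, true_and, Finset.mem_insert,
        Finset.mem_singleton, not_or]
      rcases Finset.mem_union.1 hw with hh | hh
      · rw [SimpleGraph.mem_neighborFinset] at hh
        exact ⟨hh.ne', fun e => hnadj (e ▸ hh)⟩
      · rw [SimpleGraph.mem_neighborFinset] at hh
        exact ⟨fun e => hnadj (e ▸ hh.symm), hh.ne'⟩
    have h1 := Finset.card_le_card hsub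
    rw [Finset.card_union_of_disjoint hdisj, SimpleGraph.card_neighborFinset_eq_degree,
      SimpleGraph.card_neighborFinset_eq_degree, hG u, hG v,
      Finset.card_sdiff_of_subset (Finset.subset_univ _), Finset.card_univ, hV,
      Finset.card_pair huv] at h1
    omega
  · intro u v huv
    by_contra hcon
    push Not at hcon
    have hsub : (Finset.univ : Finset V) ⊆ G.neighborFinset u ∪ G.neighborFinset v := by
      intro w _
      rw [Finset.mem_union, SimpleGraph.mem_neighborFinset, SimpleGraph.mem_neighborFinset]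
      by_cases hwu : w = u
      · subst hwu; exact Or.inr huv.symm
      by_cases hwv : w = v
      · subst hwv; exact Or.inl huv
      by_cases hw : G.Adj w u
      · exact Or.inl hw.symm
      · exact Or.inr (hcon w hwu hwv hw).symm
    have h1 := Finset.card_le_card hsub
    have h2 := Finset.card_union_le (G.neighborFinset u) (G.neighborFinset v)
    rw [SimpleGraph.card_neighborFinset_eq_degree, SimpleGraph.card_neighborFinset_eq_degree,
      hG u, hG v] at h2
    rw [Finset.card_univ, hV] at h1
    omega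


/-- Transfer of a good set from the subgraph induced outside of `X`. -/
theorem good_outside {V : Type*} (G : SimpleGraph V) (X : Finset V)
    {S : Finset {v // v ∉ X}} (hS : Good (G.comap (Subtype.val : {v // v ∉ X} → V)) S) :
    ∃ T : Finset V, Disjoint T X ∧ Good G T := by
  have key : ∀ H : SimpleGraph (Fin 5), Nonempty (H ≃g Hᶜ) →
      Nonempty ((G.comap (Subtype.val : {v // v ∉ X} → V)).induce (S : Set _) ≃g H) →
      ∃ T : Finset V, T.card = 5 ∧ Nonempty (G.induce (T : Set V) ≃g (G.induce (T : Set V))ᶜ) ∧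
        Nonempty (G.induce (T : Set V) ≃g H) ∧ Disjoint T X := by
    rintro H hH ⟨e⟩
    obtain ⟨T, h1, h2, h3, h4⟩ := good_of G H (fun i => ((e.symm i).1.1 : V))
      (fun i j hij => e.symm.injective (Subtype.ext (Subtype.ext hij)))
      (fun i j => e.symm.map_adj_iff) hH
    refine ⟨T, h1, h2, h3, Finset.disjoint_left.2 fun x hx hx' => ?_⟩
    obtain ⟨i, rfl⟩ := h4 x hx
    exact (e.symm i).1.2 hx'
  obtain ⟨-, -, h | h⟩ := hS
  · obtain ⟨T, h1, h2, h3, h4⟩ := key _ c5_self h
    exact ⟨T, h4, h1, h2, Or.inl h3⟩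
  · obtain ⟨T, h1, h2, h3, h4⟩ := key _ bull_self h
    exact ⟨T, h4, h1, h2, Or.inr h3⟩

/-- The two conditions with more than `r` common neighbours and non-neighbours. -/
def Tight {V : Type*} (G : SimpleGraph V) (r : ℕ) : Prop :=
  (∀ u v, u ≠ v → ¬ G.Adj u v → r < {w | G.Adj w u ∧ G.Adj w v}.ncard) ∧
    ∀ u v, G.Adj u v → r < {w | w ≠ u ∧ w ≠ v ∧ ¬ G.Adj w u ∧ ¬ G.Adj w v}.ncard

theorem robust {V : Type*} [Fintype V] [Nontrivial V] (G : SimpleGraph V) {r : ℕ}
    (h : Tight G r) (X : Finset V) (hX : X.card ≤ r) :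
    ∃ T : Finset V, Disjoint T X ∧ Good G T := by
  classical
  obtain ⟨h1, h2⟩ := h
  have big : r + 2 < Fintype.card V := by
    obtain ⟨u, v, huv⟩ := exists_pair_ne V
    have aux : ∀ A : Set V, r < A.ncard → u ∉ A → v ∉ A → r + 2 < Fintype.card V := by
      intro A hA hu hv
      have h3 : (insert u (insert v A)).ncard = A.ncard + 2 := by
        rw [Set.ncard_insert_of_notMem (by simp [huv, hu]), Set.ncard_insert_of_notMem hv]
      have h4 := Set.ncard_le_card (insert u (insert v A))
      rw [Nat.card_eq_fintype_card] at h4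
      omega
    by_cases hadj : G.Adj u v
    · exact aux _ (h2 u v hadj) (by simp) (by simp)
    · exact aux _ (h1 u v huv hadj) (by simp) (by simp)
  have nt : Nontrivial {v // v ∉ X} := by
    rw [← Fintype.one_lt_card_iff_nontrivial]
    have := Fintype.card_subtype_compl (fun v => v ∈ X)
    rw [Fintype.card_coe] at this
    omega
  have out : ∀ A : Set V, r < A.ncard → ∃ w ∈ A, w ∉ X := by
    intro A hA
    obtain ⟨w, hw, hw'⟩ := Set.exists_mem_notMem_of_ncard_lt_ncard
      (s := (X : Set V)) (t := A) (by rw [Set.ncard_coe_finset]; omega)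
    exact ⟨w, hw, by simpa using hw'⟩
  obtain ⟨S, hS⟩ := two_tight (G.comap (Subtype.val : {v // v ∉ X} → V))
    (fun u v huv hadj => by
      obtain ⟨w, ⟨a, b⟩, hw⟩ := out _ (h1 u v (fun e => huv (Subtype.ext e)) hadj)
      exact ⟨⟨w, hw⟩, a, b⟩)
    (fun u v hadj => by
      obtain ⟨w, ⟨a, b, c, d⟩, hw⟩ := out _ (h2 u v hadj)
      exact ⟨⟨w, hw⟩, fun e => a (congrArg Subtype.val e), fun e => b (congrArg Subtype.val e),
        c, d⟩)
  exact good_outside G X hS

theorem packing {V : Type*} [Fintype V] [Nontrivial V] (G : SimpleGraph V) {r : ℕ}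
    (h : Tight G r) : ∃ F : Finset (Finset V), F.card = r / 5 + 1 ∧
      (∀ S ∈ F, Good G S) ∧ ∀ S ∈ F, ∀ T ∈ F, S ≠ T → Disjoint S T := by
  classical
  have key : ∀ j, j ≤ r / 5 + 1 → ∃ F : Finset (Finset V), F.card = j ∧
      (∀ S ∈ F, Good G S) ∧ ∀ S ∈ F, ∀ T ∈ F, S ≠ T → Disjoint S T := by
    intro j
    induction j with
    | zero => exact fun _ => ⟨∅, by simp⟩
    | succ j ih =>
      intro hj
      obtain ⟨F, h1, h2, h3⟩ := ih (by omega)
      have hc : (F.biUnion id).card ≤ r := by
        have := Finset.card_biUnion_le_card_mul F id 5 (fun S hS => ((h2 S hS).1).le)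
        omega
      obtain ⟨T, hT, hG⟩ := robust G h (F.biUnion id) hc
      have dis : ∀ S ∈ F, Disjoint S T := fun S hS =>
        (Finset.disjoint_of_subset_right (Finset.subset_biUnion_of_mem id hS) hT).symm
      have hTF : T ∉ F := fun hTF => by
        have h5 := dis T hTF
        rw [disjoint_self, Finset.bot_eq_empty] at h5
        have := hG.1
        rw [h5] at this
        simp at this
      refine ⟨insert T F, by rw [Finset.card_insert_of_notMem hTF, h1], ?_, ?_⟩
      · intro S hS
        rcases Finset.mem_insert.1 hS with rfl | hS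
        · exact hG
        · exact h2 S hS
      · intro S hS T' hT' ne
        rcases Finset.mem_insert.1 hS with e | hS1
        · rcases Finset.mem_insert.1 hT' with e' | hT1
          · exact absurd (e.trans e'.symm) ne
          · rw [e]
            exact (dis T' hT1).symm
        · rcases Finset.mem_insert.1 hT' with e' | hT1
          · rw [e']
            exact dis S hS1
          · exact h3 S hS1 T' hT1 ne
  exact key _ le_rfl

/-- The graph on the natural numbers in which two different numbers are adjacent if and only if the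
larger one is odd. -/
def Thr : SimpleGraph ℕ where
  Adj m n := m ≠ n ∧ Odd (max m n)
  symm := ⟨fun m n h => ⟨h.1.symm, by rw [max_comm]; exact h.2⟩⟩
  loopless := ⟨fun m h => h.1 rfl⟩

theorem thr_free {n : ℕ} (H : SimpleGraph (Fin (n + 1)))
    (hH : ∀ i, (∃ j, j ≠ i ∧ H.Adj i j) ∧ ∃ j, j ≠ i ∧ ¬ H.Adj i j) : IsEmpty (H ↪g Thr) := by
  refine ⟨fun f => ?_⟩
  obtain ⟨i, hi⟩ := Finite.exists_max f
  have key : ∀ j, j ≠ i → (H.Adj i j ↔ Odd (f i)) := by
    intro j hj
    rw [← f.map_adj_iff]
    change (f i ≠ f j ∧ Odd (max (f i) (f j))) ↔ _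
    rw [max_eq_left (hi j)]
    exact ⟨fun h => h.2, fun h => ⟨fun e => hj (f.injective e).symm, h⟩⟩
  obtain ⟨⟨j, hj, h⟩, k, hk, h'⟩ := hH i
  exact h' ((key k hk).2 ((key j hj).1 h))

theorem thr_tight : (∀ u v, u ≠ v → ¬ Thr.Adj u v → {w | Thr.Adj w u ∧ Thr.Adj w v}.Infinite) ∧
    ∀ u v, Thr.Adj u v →
      {w | w ≠ u ∧ w ≠ v ∧ ¬ Thr.Adj w u ∧ ¬ Thr.Adj w v}.Infinite := by
  constructor
  · intro u v _ _
    refine Set.infinite_of_not_bddAbove fun ⟨b, hb⟩ => ?_
    have h : 2 * (u + v + b) + 1 ∈ {w | Thr.Adj w u ∧ Thr.Adj w v} := by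
      constructor
      · exact ⟨by omega, by rw [max_eq_left (by omega)]; exact ⟨_, rfl⟩⟩
      · exact ⟨by omega, by rw [max_eq_left (by omega)]; exact ⟨_, rfl⟩⟩
    have := hb h
    omega
  · intro u v _
    refine Set.infinite_of_not_bddAbove fun ⟨b, hb⟩ => ?_
    have h : 2 * (u + v + b + 1) ∈ {w | w ≠ u ∧ w ≠ v ∧ ¬ Thr.Adj w u ∧ ¬ Thr.Adj w v} := by
      refine ⟨by omega, by omega, ?_, ?_⟩
      · rintro ⟨-, h⟩
        rw [max_eq_left (by omega)] at h
        exact (Nat.not_odd_iff_even.2 (even_two_mul _)) h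
      · rintro ⟨-, h⟩
        rw [max_eq_left (by omega)] at h
        exact (Nat.not_odd_iff_even.2 (even_two_mul _)) h
    have := hb h
    omega

theorem thr_not_good (S : Finset ℕ) : ¬ Good Thr S := by
  rintro ⟨-, -, ⟨⟨e⟩⟩ | ⟨⟨e⟩⟩⟩
  · exact (thr_free (n := 4) (SimpleGraph.cycleGraph 5) (by decide)).false
      ((SimpleGraph.Embedding.induce _).comp e.symm.toEmbedding)
  · exact (thr_free (n := 4) bull (by decide)).false
      ((SimpleGraph.Embedding.induce _).comp e.symm.toEmbedding)

universe w

/-- (1) Question Q1. (2) Let `G` be a finite graph with at least two vertices such that any two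
non-adjacent vertices have more than `r` common neighbours, and any two adjacent vertices have more
than `r` common non-neighbours. Then outside every set of at most `r` vertices there are five
vertices inducing a five-cycle or a bull, and there are `r / 5 + 1` pairwise disjoint such sets of
five vertices. (3) For infinite graphs this fails: the graph `Thr` has infinitely many common
neighbours and non-neighbours for the respective pairs, and no induced path with four vertices,
five-cycle or bull. -/
theorem result :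
    (∀ (V : Type w) [Fintype V] (G : SimpleGraph V) [DecidableRel G.Adj] (k : ℕ), 0 < k →
      Fintype.card V = 2 * k + 1 → G.IsRegularOfDegree k → ∃ S : Finset V, Good G S) ∧
    (∀ (V : Type w) [Fintype V] [Nontrivial V] (G : SimpleGraph V) (r : ℕ), Tight G r →
      (∀ X : Finset V, X.card ≤ r → ∃ T : Finset V, Disjoint T X ∧ Good G T) ∧
      ∃ F : Finset (Finset V), F.card = r / 5 + 1 ∧ (∀ S ∈ F, Good G S) ∧
        ∀ S ∈ F, ∀ T ∈ F, S ≠ T → Disjoint S T) ∧
    ((∀ u v, u ≠ v → ¬ Thr.Adj u v → {w | Thr.Adj w u ∧ Thr.Adj w v}.Infinite) ∧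
      (∀ u v, Thr.Adj u v → {w | w ≠ u ∧ w ≠ v ∧ ¬ Thr.Adj w u ∧ ¬ Thr.Adj w v}.Infinite) ∧
      IsEmpty (SimpleGraph.pathGraph 4 ↪g Thr) ∧ ∀ S, ¬ Good Thr S) :=
  ⟨fun _ _ G _ k hk hV hG => regular G k hk hV hG,
    fun _ _ _ G _ h => ⟨fun X hX => robust G h X hX, packing G h⟩,
    thr_tight.1, thr_tight.2, thr_free (n := 3) _ (by
      simp only [SimpleGraph.pathGraph_adj]; decide), thr_not_good⟩

end Pool.Agent.Results.MP_aa43e9_co.Robust
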